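import Pool.Agent.W928.MW.Fin
import Pool.Agent.W327.MWNEAR
import Pool.Agent.W225.MWDIO

/-!
# Montgomery's bound for Weyl sums, for almost all points of every arc
-/

set_option autoImplicit false

open MeasureTheory

namespace Pool.Agent.Results.MP_3b0be2_nt.EveryArc

/-- For every `k ≥ 4` there is `C` such that for all `ε ≥ 0`, `N ≥ 1` and every arc `|t - a/q| ≤ 1/q^2`
(`1 ≤ a < q ≤ N`, `(a, q) = 1`), the set of `t` in the arc for which the inequality of `H_k(1/k)` with constant `1`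
fails for at least one real `ξ` has Lebesgue measure at most `C q^(4/k) N^(-1-4ε) / q^2`. -/
theorem result : ∀ k : ℕ, 4 ≤ k → ∃ C : ℝ, 0 < C ∧ ∀ ε : ℝ, 0 ≤ ε → ∀ N : ℕ, 1 ≤ N →
    ∀ a q : ℕ, 1 ≤ a → a < q → q ≤ N → Nat.Coprime a q →
    volume {t : ℝ | |t - (a : ℝ) / (q : ℝ)| ≤ 1 / (q : ℝ) ^ 2 ∧ ∃ ξ : ℝ,
        (N : ℝ) ^ (1 + ε) * (1 / (q : ℝ) + 1 / (N : ℝ) + (q : ℝ) / (N : ℝ) ^ k) ^ (1 / (k : ℝ)) <
          ‖∑ n ∈ Finset.Icc 1 N,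
            Complex.exp (2 * (Real.pi : ℂ) * Complex.I *
              (((t * (n : ℝ) ^ k + ξ * (n : ℝ)) : ℝ) : ℂ))‖} ≤
      ENNReal.ofReal (C * ((q : ℝ) ^ (4 / (k : ℝ)) / (N : ℝ) ^ (1 + 4 * ε)) * (1 / (q : ℝ) ^ 2)) := by
  intro k hk
  obtain ⟨C, hC0, hC⟩ := Pool.Agent.W928.MW.arc
    (Pool.Agent.W928.MW.int_main Pool.Agent.W225.MWD.t Pool.Agent.W327.MWNEAR.t) k hk
  refine ⟨C, hC0, fun ε hε N hN a q ha haq hqN _ => ?_⟩
  exact hC ε hε N hN a q (by omega) hqN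

end Pool.Agent.Results.MP_3b0be2_nt.EveryArc
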