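import Pool.Agent.W928.MW.Trans2

/-!
# Montgomery's bound for Weyl sums, for almost all translates `t + b/q`, `q` prime
-/

set_option autoImplicit false

namespace Pool.Agent.Results.MP_3b0be2_nt.EveryTranslate

/-- For every `k ≥ 4`, real `ε`, `N ≥ 1`, every prime `q ≤ N` and every real `t`, the inequality of `H_k(1/k)`
(with this `q` and constant `1`) holds at `t + b/q` for all real `ξ`, for all residues `b` mod `q` with at most
`(6k+6) q^(4/k) N^(-4ε)` exceptions. -/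
theorem result : ∀ k : ℕ, 4 ≤ k → ∀ ε : ℝ, ∀ N : ℕ, 1 ≤ N → ∀ q : ℕ, q.Prime → q ≤ N → ∀ t : ℝ,
    (({b : ℕ | b < q ∧ ∃ ξ : ℝ,
        (N : ℝ) ^ (1 + ε) * (1 / (q : ℝ) + 1 / (N : ℝ) + (q : ℝ) / (N : ℝ) ^ k) ^ (1 / (k : ℝ)) <
          ‖∑ n ∈ Finset.Icc 1 N,
            Complex.exp (2 * (Real.pi : ℂ) * Complex.I *
              ((((t + (b : ℝ) / (q : ℝ)) * (n : ℝ) ^ k + ξ * (n : ℝ)) : ℝ) : ℂ))‖}.ncard : ℕ) : ℝ) ≤
      (6 * k + 6) * (q : ℝ) ^ (4 / (k : ℝ)) / (N : ℝ) ^ (4 * ε) := by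
  intro k hk ε N hN q hq hqN t
  exact Pool.Agent.W928.MW.translates k hk ε N hN q hq hqN t

end Pool.Agent.Results.MP_3b0be2_nt.EveryTranslate
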