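import Pool.Agent.W928.MW.Fin
import Pool.Agent.W327.MWNEAR
import Pool.Agent.W225.MWDIO
import Pool.Agent.W884.MWMAX
import Pool.Agent.W802.MWDIMG
import Pool.Agent.W686.MWCOV

/-!
# Montgomery's bound for Weyl sums: Hausdorff dimension of the exceptional set
-/

set_option autoImplicit false

open MeasureTheory

namespace Pool.Agent.Results.MP_3b0be2_nt.ExceptionalDimension

/-- The inequality of `H_k(1/k)` at one point `t`, with given `ε` and constant `C`, for all `N`, `ξ`, `a`, `q`. -/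
def HoldsAt (k : ℕ) (ε C t : ℝ) : Prop :=
  ∀ N : ℕ, 1 ≤ N → ∀ ξ : ℝ, ∀ a q : ℕ, 1 ≤ a → a < q → q ≤ N → Nat.Coprime a q →
    |t - (a : ℝ) / (q : ℝ)| ≤ 1 / (q : ℝ) ^ 2 →
    ‖∑ n ∈ Finset.Icc 1 N,
      Complex.exp (2 * (Real.pi : ℂ) * Complex.I *
        (((t * (n : ℝ) ^ k + ξ * (n : ℝ)) : ℝ) : ℂ))‖ ≤ C * (N : ℝ) ^ (1 + ε) *
      (1 / (q : ℝ) + 1 / (N : ℝ) + (q : ℝ) / (N : ℝ) ^ k) ^ (1 / (k : ℝ))

/-- For every `k ≥ 4` and `δ ≥ 0` the set of real `t` such that for some `ε > δ` no constant works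
has Hausdorff dimension at most `1 - (k - 4 + 4δk)/(k^2+1)`. -/
theorem result : ∀ k : ℕ, 4 ≤ k → ∀ δ : ℝ, 0 ≤ δ →
    dimH {t : ℝ | ∃ ε : ℝ, δ < ε ∧ ¬ ∃ C : ℝ, 0 < C ∧ HoldsAt k ε C t} ≤
      ENNReal.ofReal (1 - ((k : ℝ) - 4 + 4 * δ * k) / ((k : ℝ) ^ 2 + 1)) := by
  intro k hk δ hδ
  have hI := Pool.Agent.W928.MW.int_main Pool.Agent.W225.MWD.t Pool.Agent.W327.MWNEAR.t
  have h1 : ∀ ε : ℝ, 0 < ε → dimH {t : ℝ | ¬ ∃ C : ℝ, 0 < C ∧ HoldsAt k ε C t} ≤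
      ENNReal.ofReal (1 - ((k : ℝ) - 4 + 4 * ε * k) / ((k : ℝ) ^ 2 + 1)) := fun ε hε =>
    Pool.Agent.W928.MW.dim_main hI Pool.Agent.W884.MWMAX.t Pool.Agent.W686.MWCOV.t
      Pool.Agent.W802.MWDIMG.t k hk ε hε
  have hmono : ∀ ε ε' C t : ℝ, ε ≤ ε' → 0 < C → HoldsAt k ε C t → HoldsAt k ε' C t := by
    intro ε ε' C t hεε hC h N hN ξ a q h2 h3 h4 h5 h6
    refine (h N hN ξ a q h2 h3 h4 h5 h6).trans ?_
    have hN' : (1 : ℝ) ≤ (N : ℝ) := by exact_mod_cast hN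
    have h7 : (N : ℝ) ^ (1 + ε) ≤ (N : ℝ) ^ (1 + ε') :=
      Real.rpow_le_rpow_of_exponent_le hN' (by linarith)
    have h8 : 0 ≤ (1 / (q : ℝ) + 1 / (N : ℝ) + (q : ℝ) / (N : ℝ) ^ k) ^ (1 / (k : ℝ)) := by positivity
    apply mul_le_mul_of_nonneg_right _ h8
    exact mul_le_mul_of_nonneg_left h7 hC.le
  have hsub : {t : ℝ | ∃ ε : ℝ, δ < ε ∧ ¬ ∃ C : ℝ, 0 < C ∧ HoldsAt k ε C t} ⊆
      ⋃ n : ℕ, {t : ℝ | ¬ ∃ C : ℝ, 0 < C ∧ HoldsAt k (δ + 1 / ((n : ℝ) + 1)) C t} := by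
    rintro t ⟨ε, hε, h⟩
    obtain ⟨n, hn⟩ := exists_nat_one_div_lt (sub_pos.mpr hε)
    rw [Set.mem_iUnion]
    refine ⟨n, ?_⟩
    rintro ⟨C, hC, hh⟩
    exact h ⟨C, hC, hmono _ ε C t (by linarith) hC hh⟩
  refine (dimH_mono hsub).trans ?_
  rw [dimH_iUnion]
  apply iSup_le
  intro n
  have hn0 : (0 : ℝ) < 1 / ((n : ℝ) + 1) := by positivity
  refine (h1 (δ + 1 / ((n : ℝ) + 1)) (by positivity)).trans ?_
  apply ENNReal.ofReal_le_ofReal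
  have hk2 : (0 : ℝ) < (k : ℝ) ^ 2 + 1 := by positivity
  have h9 : ((k : ℝ) - 4 + 4 * δ * k) / ((k : ℝ) ^ 2 + 1) ≤
      ((k : ℝ) - 4 + 4 * (δ + 1 / ((n : ℝ) + 1)) * k) / ((k : ℝ) ^ 2 + 1) := by
    apply div_le_div_of_nonneg_right _ hk2.le
    have : 0 ≤ 4 * (1 / ((n : ℝ) + 1)) * (k : ℝ) := by positivity
    nlinarith
  linarith

end Pool.Agent.Results.MP_3b0be2_nt.ExceptionalDimension
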